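import Pool.Agent.K3h75.ND.StmE
import Pool.Agent.K3h86.ND.Cnto

/-!
# Almost all forms with coefficients in `O` have nodal reductions (brick CNTE, for helper75)

Adapted from `Pool.Agent.K3h86.ND.Cnto`: the same sieve without residue classes.
-/

set_option autoImplicit false
set_option linter.unusedSectionVars false

namespace Pool.Agent.K3h77.ND

open MvPolynomial Pool.Agent.K3h75.ND Pool.Agent.K3h91.ND Pool.Agent.K3h86.ND

theorem t_CNTE : S_EK → S_E1 → S_E2 → S_NRM1 → S_NRM2 → S_CNTE := by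
  classical
  intro EK E1 E2 NRM1 NRM2 O ι _ _ _ _ ω N d hN hd ε hε
  obtain ⟨i₀⟩ : Nonempty ι := ω.index_nonempty
  obtain ⟨g, hg, hE1⟩ := E1 N d hd
  obtain ⟨Δ, hΔ, hE2⟩ := E2 N d hd
  obtain ⟨Δ', hΔ', hN1⟩ := NRM1 O ι (Idx N d) ω Δ hΔ
  obtain ⟨δ, g', hδ, hg', hN2⟩ := NRM2 O ι (Idx N d) ω i₀ g hg d (by omega)
  have hΔ'' : (rename Sum.inl Δ' : MvPolynomial ((Idx N d × ι) ⊕ {i : ι // i ≠ i₀}) ℤ) ≠ 0 := by
    intro h
    apply hΔ'
    apply rename_injective (R := ℤ) (Sum.inl : Idx N d × ι → (Idx N d × ι) ⊕ {i : ι // i ≠ i₀})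
      Sum.inl_injective
    rw [h, map_zero]
  obtain ⟨C₁, hC₁, P₀, hEK⟩ := EK ((Idx N d × ι) ⊕ {i : ι // i ≠ i₀}) g' hg' δ hδ _ hΔ''
  -- the primes
  set P : ℕ := P₀ + ⌈C₁ / ε⌉₊ + 1 with hP
  have hPC : C₁ / ε ≤ P := by
    have h1 : C₁ / ε ≤ (⌈C₁ / ε⌉₊ : ℝ) := Nat.le_ceil _
    have h2 : ((⌈C₁ / ε⌉₊ : ℕ) : ℝ) ≤ (P : ℝ) := by
      rw [hP]
      push_cast
      have : (0 : ℝ) ≤ (P₀ : ℝ) := Nat.cast_nonneg _
      linarith
    linarith
  have hP1 : (0 : ℝ) < P := by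
    rw [hP]
    positivity
  obtain ⟨H₀, hH₀⟩ := hEK P (by omega) 1 le_rfl
    (fun p hp _ h => hp.one_lt.ne' (Nat.dvd_one.1 h)) (fun _ => 0) 0
  refine ⟨P, H₀, fun H hH => ?_⟩
  have hZc := hH₀ H hH
  -- the exceptional set
  set Z : Set (((Idx N d × ι) ⊕ {i : ι // i ≠ i₀} → ℤ) × ℤ) :=
      {z | (∀ i, |z.1 i| ≤ 2 * H ∧ ((1 : ℕ) : ℤ) ∣ z.1 i - 0) ∧ |z.2| ≤ H ∧
      ((1 : ℕ) : ℤ) ∣ z.2 - 0 ∧ (ev g' z.1 (δ * z.2) = 0 ∨
        eval z.1 (rename Sum.inl Δ') = 0 ∨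
        ∃ p : ℕ, p.Prime ∧ P < p ∧ (p : ℤ) ∣ ev g' z.1 (δ * z.2) ∧
          (p : ℤ) ∣ eval z.1 (rename Sum.inl Δ'))} with hZ
  have hZfin : Z.Finite := by
    have h1 : ((Set.pi Set.univ (fun _ : (Idx N d × ι) ⊕ {i : ι // i ≠ i₀} =>
        Set.Icc (-(2 * H : ℤ)) (2 * H))) ×ˢ (Set.Icc (-(H : ℤ)) H)).Finite :=
      (Set.Finite.pi (fun _ => Set.finite_Icc _ _)).prod (Set.finite_Icc _ _)
    refine h1.subset ?_
    rintro ⟨b, c⟩ ⟨h2, h3, -, -⟩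
    refine ⟨fun i _ => abs_le.1 (h2 i).1, abs_le.1 h3⟩
  -- bad vectors are in the exceptional set
  have hbad : ∀ A : Mon (N + 1) d × ι → ℤ, (∀ m, |A m| ≤ H) → parO i₀ A ∉ Z →
      GoodVecE P (vecO ω A) := by
    intro A ha hZA
    have hform : ∀ (k : Type) [Field k] (φ : O →+* k), (form fun m => φ (vecO ω A m)) =
        pform (fun m : Idx N d => φ (∑ i, parB A (m, i) • ω i))
          (φ (∑ i, A (fst0 N d, i) • ω i)) := by
      intro k _ φ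
      unfold pform
      rw [← pcoef_vecO]
    have hbox : (∀ i, |(parO i₀ A).1 i| ≤ 2 * H ∧ ((1 : ℕ) : ℤ) ∣ (parO i₀ A).1 i - 0) ∧
        |(parO i₀ A).2| ≤ H ∧ ((1 : ℕ) : ℤ) ∣ (parO i₀ A).2 - 0 := by
      refine ⟨?_, ha _, by simp⟩
      have h2 : (0 : ℤ) ≤ H := Int.natCast_nonneg _
      rintro (⟨m, i⟩ | i)
      · show |parB A (m, i)| ≤ 2 * H ∧ ((1 : ℕ) : ℤ) ∣ parB A (m, i) - 0
        refine ⟨?_, by simp⟩
        unfold parB
        simp only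
        split_ifs with h
        · have h1 := abs_le.1 (ha (m.1, i))
          have h2 := abs_le.1 (ha (fst0 N d, i))
          rw [abs_le]
          constructor <;> linarith [h1.1, h1.2, h2.1, h2.2]
        · have h1 := ha (m.1, i)
          rw [sub_zero]
          linarith
      · show |A (fst0 N d, i.1)| ≤ 2 * H ∧ ((1 : ℕ) : ℤ) ∣ A (fst0 N d, i.1) - 0
        refine ⟨?_, by simp⟩
        have h1 := ha (fst0 N d, i.1)
        linarith
    have hren : eval (parO i₀ A).1 (rename Sum.inl Δ') = eval (parB A) Δ' := by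
      rw [eval_rename]
      rfl
    constructor
    · intro k _ _ φ x hx
      by_contra hne
      rw [hform k φ] at hx
      have h1 := hN2 k φ (parB A) (fun i => A (fst0 N d, i)) (hE1 k _ _ x hne hx)
      have h2 : ev g' (parO i₀ A).1 (δ * (parO i₀ A).2) = 0 := by exact_mod_cast h1
      exact hZA ⟨hbox.1, hbox.2.1, hbox.2.2, Or.inl h2⟩
    · intro p hp hpP k _ _ φ x s hxs h0 hx hdet
      have hne : x ≠ 0 := by
        intro h
        rw [h] at hxs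
        simp at hxs
      rw [hform k φ] at hx hdet
      have h1 := hN2 k φ (parB A) (fun i => A (fst0 N d, i)) (hE1 k _ _ x hne hx)
      have h2 := hN1 k φ (parB A) (hE2 k _ _ x s hxs hx hdet)
      have h1' : (p : ℤ) ∣ ev g' (parO i₀ A).1 (δ * (parO i₀ A).2) :=
        (CharP.intCast_eq_zero_iff k p _).1 h1
      have h2' : (p : ℤ) ∣ eval (parO i₀ A).1 (rename Sum.inl Δ') := by
        rw [hren]
        exact (CharP.intCast_eq_zero_iff k p _).1 h2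
      exact hZA ⟨hbox.1, hbox.2.1, hbox.2.2, Or.inr (Or.inr ⟨p, hp, hpP, h1', h2'⟩)⟩
  -- conclusion
  have h1 : {a : Mon (N + 1) d → O | (∀ m i, |ω.repr (a m) i| ≤ H) ∧ ¬ GoodVecE P a}.ncard ≤
      Z.ncard := by
    refine Set.ncard_le_ncard_of_injOn
      (fun a : Mon (N + 1) d → O => parO i₀ (fun mi : Mon (N + 1) d × ι => ω.repr (a mi.1) mi.2))
      ?_ ?_ hZfin
    · rintro a ⟨h1, h2⟩
      by_contra h3
      apply h2
      have h4 := hbad _ (fun mi => h1 mi.1 mi.2) h3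
      rwa [vecO_repr] at h4
    · intro a _ a' _ h
      have h2 := parO_inj i₀ h
      rw [← vecO_repr ω a, h2, vecO_repr]
  set M := Fintype.card (Mon (N + 1) d) * Fintype.card ι with hM
  have h4 : (Z.ncard : ℝ) ≤ C₁ / P * ((H : ℝ) / (1 : ℕ)) ^
      (Fintype.card ((Idx N d × ι) ⊕ {i : ι // i ≠ i₀}) + 1) := hZc
  rw [card_J, ← hM, Nat.cast_one, div_one] at h4
  have h5 : C₁ / P ≤ ε := by
    rw [div_le_iff₀ hP1]
    rw [div_le_iff₀ hε] at hPC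
    linarith
  have hH0 : (0 : ℝ) ≤ H := Nat.cast_nonneg _
  have h6 : (H : ℝ) ^ M ≤ (2 * (H : ℝ) + 1) ^ M := by
    apply pow_le_pow_left₀ hH0
    linarith
  have h7 : C₁ / P * (H : ℝ) ^ M ≤ ε * (2 * (H : ℝ) + 1) ^ M :=
    mul_le_mul h5 h6 (by positivity) hε.le
  have h8 : (({a : Mon (N + 1) d → O | (∀ m i, |ω.repr (a m) i| ≤ H) ∧
      ¬ GoodVecE P a}.ncard : ℕ) : ℝ) ≤ (Z.ncard : ℝ) := by
    exact_mod_cast h1
  linarith

end Pool.Agent.K3h77.ND
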